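import Mathlib

/-!
# A functionally `G_δ` subset of a normal space which is not `1`-embedded

The space is the Michael line, the set is the set of irrational numbers.
-/

namespace Pool.Agent.Results.MP_aca66f_gt.MichaelLine

open Set Filter Topology

/-- `A` is functionally open: `A = f⁻¹((0,1])` for a continuous `f : X → [0,1]`. -/
def FOpen {X : Type} [TopologicalSpace X] (A : Set X) : Prop :=
  ∃ f : X → ℝ, Continuous f ∧ (∀ x, f x ∈ Icc (0 : ℝ) 1) ∧ A = f ⁻¹' Ioc 0 1

/-- `A` is functionally closed: `A = f⁻¹(0)` for a continuous `f : X → [0,1]`. -/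
def FClosed {X : Type} [TopologicalSpace X] (A : Set X) : Prop :=
  ∃ f : X → ℝ, Continuous f ∧ (∀ x, f x ∈ Icc (0 : ℝ) 1) ∧ A = f ⁻¹' {0}

/-- `A` is functionally `G_δ`: a countable intersection of functionally open sets. -/
def FGdelta {X : Type} [TopologicalSpace X] (A : Set X) : Prop :=
  ∃ U : ℕ → Set X, (∀ n, FOpen (U n)) ∧ A = ⋂ n, U n

/-- `A` is functionally `F_σ`: a countable union of functionally closed sets. -/
def FFsigma {X : Type} [TopologicalSpace X] (A : Set X) : Prop :=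
  ∃ Z : ℕ → Set X, (∀ n, FClosed (Z n)) ∧ A = ⋃ n, Z n

/-- `E` is `1`-embedded in `X`: every functionally `F_σ` (`G_δ`) subset of the subspace `E` is the
trace on `E` of a functionally `F_σ` (`G_δ`) subset of `X`. -/
def OneEmbedded {X : Type} [TopologicalSpace X] (E : Set X) : Prop :=
  (∀ S : Set E, FFsigma S → ∃ B : Set X, FFsigma B ∧ S = Subtype.val ⁻¹' B) ∧
  (∀ S : Set E, FGdelta S → ∃ B : Set X, FGdelta B ∧ S = Subtype.val ⁻¹' B)

/-- The Michael line: the real numbers, with the irrational numbers isolated. -/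
structure ML where
  /-- the real number -/
  v : ℝ

/-- rational points -/
def Qs : Set ℝ := Set.range ((↑) : ℚ → ℝ)

/-- the set of real numbers which corresponds to a subset of the Michael line -/
def R (U : Set ML) : Set ℝ := {y | (⟨y⟩ : ML) ∈ U}

theorem mem_R {U : Set ML} {x : ℝ} : x ∈ R U ↔ (⟨x⟩ : ML) ∈ U := Iff.rfl

instance : TopologicalSpace ML where
  IsOpen U := ∀ x : ℝ, x ∈ R U → x ∈ Qs → R U ∈ 𝓝 x
  isOpen_univ := fun x _ _ => univ_mem
  isOpen_inter := fun s t hs ht x hx hq => inter_mem (hs x hx.1 hq) (ht x hx.2 hq)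
  isOpen_sUnion := fun S hS x hx hq => by
    obtain ⟨U, hU, hxU⟩ := hx
    refine mem_of_superset (hS U hU x hxU hq) fun y hy => ⟨U, hU, hy⟩

theorem isOpen_ml {U : Set ML} :
    IsOpen U ↔ ∀ x : ℝ, x ∈ R U → x ∈ Qs → R U ∈ 𝓝 x := Iff.rfl

theorem isClosed_ml {F : Set ML} :
    IsClosed F ↔ ∀ x : ℝ, x ∉ R F → x ∈ Qs → (R F)ᶜ ∈ 𝓝 x := by
  rw [← isOpen_compl_iff]; rfl

theorem cont_v : Continuous ML.v :=
  continuous_def.2 fun _ hU _ hx _ => hU.mem_nhds hx

theorem isOpen_singleton_irr {x : ML} (hx : x.v ∉ Qs) : IsOpen ({x} : Set ML) := by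
  rw [isOpen_ml]
  intro y hy hq
  rw [mem_R, mem_singleton_iff] at hy
  subst hy
  exact absurd hq hx

theorem t1 : T1Space ML := by
  refine ⟨fun x => ?_⟩
  rw [isClosed_ml]
  intro y hy _
  have h : (R {x})ᶜ = {x.v}ᶜ := by
    ext z
    constructor
    · intro hz hc
      rw [mem_singleton_iff] at hc
      refine hz ?_
      rw [mem_R, mem_singleton_iff, hc]
    · intro hz hc
      rw [mem_R, mem_singleton_iff] at hc
      exact hz (by rw [← hc]; rfl)
  rw [h]
  refine isOpen_compl_singleton.mem_nhds fun hc => hy ?_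
  rw [mem_singleton_iff] at hc
  rw [mem_R, mem_singleton_iff, hc]

theorem normal : NormalSpace ML := by
  refine ⟨fun F G hF hG hFG => ?_⟩
  have key : ∀ F G : Set ML, IsClosed G → Disjoint F G → ∀ q : ℝ, ∃ e : ℝ,
      0 < e ∧ (q ∈ R F ∩ Qs → ∀ y ∈ Metric.ball q e, y ∉ R G) := by
    intro F G hG hFG q
    by_cases hq : q ∈ R F ∩ Qs
    · have h1 : q ∉ R G := fun h => Set.disjoint_left.1 hFG hq.1 h
      obtain ⟨e, he, h⟩ := Metric.mem_nhds_iff.1 (isClosed_ml.1 hG q h1 hq.2)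
      exact ⟨e, he, fun _ y hy => h hy⟩
    · exact ⟨1, one_pos, fun h => absurd h hq⟩
  choose e he1 he2 using key F G hG hFG
  choose d hd1 hd2 using key G F hF hFG.symm
  have hopen : ∀ (F : Set ML) (e : ℝ → ℝ), (∀ q, 0 < e q) →
      IsOpen {p : ML | p ∈ F ∨ ∃ q ∈ R F ∩ Qs, p.v ∈ Metric.ball q (e q / 2)} := by
    intro F e he
    rw [isOpen_ml]
    intro x hx hq
    rcases hx with hx | ⟨q, hqF, hx⟩
    · refine mem_of_superset (Metric.ball_mem_nhds x (half_pos (he x))) ?_
      intro y hy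
      exact Or.inr ⟨x, ⟨hx, hq⟩, hy⟩
    · refine mem_of_superset (Metric.isOpen_ball.mem_nhds hx) ?_
      intro y hy
      exact Or.inr ⟨q, hqF, hy⟩
  refine ⟨_, _, hopen F e he1, hopen G d hd1, fun x hx => Or.inl hx, fun x hx => Or.inl hx, ?_⟩
  rw [Set.disjoint_left]
  rintro x (hx | ⟨q, hq, hxq⟩) (hy | ⟨r, hr, hxr⟩)
  · exact Set.disjoint_left.1 hFG hx hy
  · exact hd2 r hr x.v (Metric.ball_subset_ball (by linarith [hd1 r]) hxr) hx
  · exact he2 q hq x.v (Metric.ball_subset_ball (by linarith [he1 q]) hxq) hy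
  · rw [Metric.mem_ball, Real.dist_eq] at hxq hxr
    have h3 : |r - q| < e q / 2 + d r / 2 := by
      have : r - q = (x.v - q) - (x.v - r) := by ring
      rw [this]
      exact lt_of_le_of_lt (abs_sub _ _) (by linarith)
    rcases le_total (d r) (e q) with h | h
    · refine he2 q hq r ?_ hr.1
      rw [Metric.mem_ball, Real.dist_eq]; linarith
    · refine hd2 r hr q ?_ hq.1
      rw [Metric.mem_ball, Real.dist_eq, abs_sub_comm]; linarith

/-- The set of irrational numbers. -/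
def Irr : Set ML := {p | p.v ∉ Qs}

theorem fgdelta_irr : FGdelta Irr := by
  obtain ⟨q, hq⟩ := exists_surjective_nat ℚ
  refine ⟨fun n => {p : ML | p.v ≠ q n}, fun n => ?_, ?_⟩
  · refine ⟨fun x : ML => min |x.v - q n| 1, ?_, fun x => ?_, ?_⟩
    · have h : Continuous fun y : ℝ => min |y - q n| 1 := by fun_prop
      exact h.comp cont_v
    · exact ⟨le_min (abs_nonneg _) zero_le_one, min_le_right _ _⟩
    · ext x
      constructor
      · intro hx
        exact ⟨lt_min (abs_pos.2 (sub_ne_zero.2 hx)) one_pos, min_le_right _ _⟩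
      · intro hx h
        have h1 := hx.1
        dsimp only at h1
        rw [h, sub_self, abs_zero] at h1
        have h2 := lt_of_lt_of_le h1 (min_le_left _ _)
        exact lt_irrefl _ h2
  · ext x
    constructor
    · intro hx
      rw [mem_iInter]
      intro n h
      exact hx ⟨q n, h.symm⟩
    · rintro hx ⟨r, hr⟩
      obtain ⟨n, hn⟩ := hq r
      rw [mem_iInter] at hx
      refine hx n ?_
      rw [← hn] at hr
      exact hr.symm

theorem exists_phi : ∃ (φ : ℝ →ₗ[ℚ] ℚ) (u : ℝ), φ 1 = 0 ∧ φ u = 1 := by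
  have hlt : Submodule.span ℚ ({1} : Set ℝ) < ⊤ := by
    rw [lt_top_iff_ne_top]
    intro h
    have h2 : Real.sqrt 2 ∈ Submodule.span ℚ ({1} : Set ℝ) := by rw [h]; trivial
    rw [Submodule.mem_span_singleton] at h2
    obtain ⟨a, ha⟩ := h2
    refine irrational_sqrt_two ⟨a, ?_⟩
    rw [← ha, Rat.smul_def, mul_one]
  obtain ⟨f, hf, hk⟩ := Submodule.exists_le_ker_of_lt_top _ hlt
  have h1 : f 1 = 0 := by
    have : (1 : ℝ) ∈ LinearMap.ker f := hk (Submodule.mem_span_singleton_self _)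
    exact this
  have : ∃ v, f v ≠ 0 := by
    by_contra hc
    push Not at hc
    exact hf (LinearMap.ext hc)
  obtain ⟨v, hv⟩ := this
  refine ⟨f, (f v)⁻¹ • v, h1, ?_⟩
  rw [map_smul, smul_eq_mul, inv_mul_cancel₀ hv]

theorem phi_rat {φ : ℝ →ₗ[ℚ] ℚ} (h1 : φ 1 = 0) (q : ℚ) : φ (q : ℝ) = 0 := by
  have : (q : ℝ) = q • (1 : ℝ) := by rw [Rat.smul_def, mul_one]
  rw [this, map_smul, h1, smul_zero]

theorem meagre_translate {s : Set ℝ} (hs : IsMeagre s) (a : ℝ) :
    IsMeagre ((fun x => x + a) ⁻¹' s) :=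
  hs.preimage_of_isOpenMap (by fun_prop) (isOpenMap_add_right a)

theorem exists_rat {J : Set ℝ} (hJ : IsOpen J) (hne : J.Nonempty) : ∃ r : ℚ, (r : ℝ) ∈ J := by
  have h : DenseRange ((↑) : ℚ → ℝ) := Rat.denseRange_cast
  obtain ⟨r, hr⟩ := h.exists_mem_open hJ hne
  exact ⟨r, hr⟩

theorem not_meagre {φ : ℝ →ₗ[ℚ] ℚ} {u : ℝ} (h1 : φ 1 = 0) (hu : φ u = 1) (c : ℚ) {J : Set ℝ}
    (hJ : IsOpen J) (hne : J.Nonempty) : ¬ IsMeagre ({x | φ x = c} ∩ J) := by
  intro hm
  have hT : IsMeagre {x | φ x = c} := by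
    refine IsMeagre.mono ?_ (isMeagre_iUnion fun r : ℚ => meagre_translate hm (r : ℝ))
    intro x hx
    obtain ⟨j, hj⟩ := hne
    have hopen : IsOpen ((fun y => x + y) ⁻¹' J) := hJ.preimage (by fun_prop)
    obtain ⟨r, hr⟩ := exists_rat hopen ⟨j - x, by simpa using hj⟩
    rw [mem_iUnion]
    refine ⟨r, ?_, hr⟩
    show φ (x + r) = c
    rw [map_add, phi_rat h1, add_zero]; exact hx
  have huniv : IsMeagre (univ : Set ℝ) := by
    refine IsMeagre.mono ?_ (isMeagre_iUnion fun d : ℚ => meagre_translate hT (d • u))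
    intro x _
    rw [mem_iUnion]
    refine ⟨c - φ x, ?_⟩
    show φ (x + (c - φ x) • u) = c
    rw [map_add, map_smul, hu, smul_eq_mul, mul_one]; ring
  exact not_isMeagre_of_isOpen isOpen_univ univ_nonempty huniv

theorem meagre_closed {C : Set ℝ} (hC : IsClosed C) (h : interior C = ∅) : IsMeagre C := by
  apply IsNowhereDense.isMeagre
  rw [hC.isNowhereDense_iff]
  exact h

/-- The main point: the trace of the hyperplane is not the trace of a functionally `F_σ` set. -/
theorem no_trace {φ : ℝ →ₗ[ℚ] ℚ} {u : ℝ} (h1 : φ 1 = 0) (hu : φ u = 1) (B : Set ML)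
    (hB : FFsigma B) (h : ∀ x : ℝ, x ∉ Qs → (φ x = 0 ↔ x ∈ R B)) : False := by
  obtain ⟨Z, hZ, hBZ⟩ := hB
  choose g hg hg01 hgZ using hZ
  let U : ℕ → Set ML := fun n => {x | 0 < g n x}
  let F : ℕ → ℕ → Set ML := fun n k => {x | 1 / ((k : ℝ) + 1) ≤ g n x}
  have hFc : ∀ n k, IsClosed (F n k) := fun n k => isClosed_le continuous_const (hg n)
  have hUo : ∀ n, IsOpen (U n) := fun n => isOpen_lt continuous_const (hg n)
  have hUV : ∀ n x, x ∈ R (U n) → x ∈ Qs → x ∈ interior (R (U n)) := by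
    intro n x hx hq
    exact mem_interior_iff_mem_nhds.2 (isOpen_ml.1 (hUo n) x hx hq)
  let K : ℕ → ℕ → Set ℝ := fun n k => closure (R (F n k) \ interior (R (U n)))
  have hKQ : ∀ n k x, x ∈ K n k → x ∉ Qs := by
    intro n k x hx hq
    have hxF : x ∈ R (F n k) := by
      by_contra hc
      have h2 := isClosed_ml.1 (hFc n k) x hc hq
      have h3 : x ∈ closure (R (F n k)) := closure_mono (fun y hy => hy.1) hx
      rw [mem_closure_iff_nhds] at h3
      obtain ⟨y, hy1, hy2⟩ := h3 _ h2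
      exact hy1 hy2
    have hxU : x ∈ R (U n) := by
      have : 0 < 1 / ((k : ℝ) + 1) := by positivity
      exact lt_of_lt_of_le this hxF
    have h4 := hUV n x hxU hq
    rw [mem_closure_iff_nhds] at hx
    obtain ⟨y, hy1, hy2⟩ := hx _ (isOpen_interior.mem_nhds h4)
    exact hy2.2 hy1
  have hKm : ∀ n k, IsMeagre (K n k) := by
    intro n k
    apply meagre_closed isClosed_closure
    by_contra hne
    obtain ⟨r, hr⟩ := exists_rat (isOpen_interior (s := K n k)) (nonempty_iff_ne_empty.2 hne)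
    exact hKQ n k r (interior_subset hr) ⟨r, rfl⟩
  -- complement of the hyperplane
  have hD : ∀ n x, φ x = 1 → x ∈ (interior (R (U n)))ᶜ → x ∈ ⋃ k, K n k := by
    intro n x hx hxC
    have hxq : x ∉ Qs := by
      rintro ⟨q, hq⟩
      rw [← hq, phi_rat h1] at hx
      exact zero_ne_one hx
    have hxB : x ∉ R B := fun hb => by
      rw [← h x hxq] at hb
      rw [hb] at hx; exact zero_ne_one hx
    have hxZ : (⟨x⟩ : ML) ∉ Z n := fun hz => hxB (by rw [mem_R, hBZ]; exact mem_iUnion.2 ⟨n, hz⟩)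
    have hpos : 0 < g n ⟨x⟩ := by
      rcases lt_or_eq_of_le (hg01 n ⟨x⟩).1 with h3 | h3
      · exact h3
      · exact absurd (by rw [hgZ n]; exact h3.symm) hxZ
    obtain ⟨k, hk⟩ := exists_nat_one_div_lt hpos
    rw [mem_iUnion]
    exact ⟨k, subset_closure ⟨hk.le, hxC⟩⟩
  have hint : ∃ n, (interior ((interior (R (U n)))ᶜ)).Nonempty := by
    by_contra hc
    push Not at hc
    have hall : ∀ n, IsMeagre ((interior (R (U n)))ᶜ) := fun n =>
      meagre_closed isOpen_interior.isClosed_compl (hc n)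
    have hQ : IsMeagre (⋃ q : ℚ, ({(q : ℝ)} : Set ℝ)) := isMeagre_iUnion fun q =>
      meagre_closed isClosed_singleton (interior_singleton _)
    have hS : IsMeagre ({x | φ x = 0} ∩ univ) := by
      refine IsMeagre.mono ?_ (hQ.union (isMeagre_iUnion hall))
      rintro x ⟨hx, -⟩
      by_cases hq : x ∈ Qs
      · left
        obtain ⟨q, hq⟩ := hq
        exact mem_iUnion.2 ⟨q, hq.symm⟩
      · right
        have hxB : x ∈ R B := (h x hq).1 hx
        rw [mem_R, hBZ] at hxB
        obtain ⟨n, hn⟩ := mem_iUnion.1 hxB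
        refine mem_iUnion.2 ⟨n, fun hi => ?_⟩
        have h5 : x ∈ R (U n) := interior_subset hi
        have h5' : 0 < g n ⟨x⟩ := h5
        rw [hgZ n] at hn
        have h6 : g n ⟨x⟩ = 0 := hn
        rw [h6] at h5'
        exact lt_irrefl _ h5'
    exact not_meagre h1 hu 0 isOpen_univ univ_nonempty hS
  obtain ⟨n, hn⟩ := hint
  refine not_meagre h1 hu 1 isOpen_interior hn ?_
  refine IsMeagre.mono ?_ (isMeagre_iUnion (hKm n))
  rintro x ⟨hx, hxi⟩
  exact hD n x hx (interior_subset hxi)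

theorem discrete_irr : DiscreteTopology Irr := by
  rw [discreteTopology_iff_isOpen_singleton]
  intro x
  have h : ({x} : Set Irr) = Subtype.val ⁻¹' (({(x : ML)} : Set ML)) := by
    ext y; simp [Subtype.ext_iff]
  rw [h]
  exact (isOpen_singleton_irr x.2).preimage continuous_subtype_val

/-- There are a normal space and a functionally `G_δ` subset of it which is not `1`-embedded. -/
theorem result : ∃ (X : Type) (_ : TopologicalSpace X), T1Space X ∧ NormalSpace X ∧
    ∃ E : Set X, FGdelta E ∧ ¬ OneEmbedded E := by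
  refine ⟨ML, inferInstance, t1, normal, Irr, fgdelta_irr, fun hE => ?_⟩
  obtain ⟨φ, u, h1, hu⟩ := exists_phi
  have := discrete_irr
  classical
  let S : Set Irr := {x | φ x.1.v = 0}
  have hS : FFsigma S := by
    refine ⟨fun _ => S, fun _ => ?_, (iUnion_const S).symm⟩
    refine ⟨fun x => if φ x.1.v = 0 then 0 else 1, continuous_of_discreteTopology, ?_, ?_⟩
    · intro x
      show (if φ x.1.v = 0 then (0 : ℝ) else 1) ∈ Icc (0 : ℝ) 1
      split_ifs <;> simp
    · ext x
      show φ x.1.v = 0 ↔ (if φ x.1.v = 0 then (0 : ℝ) else 1) = 0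
      split_ifs with h <;> simp [h]
  obtain ⟨B, hB, hSB⟩ := hE.1 S hS
  refine no_trace h1 hu B hB fun x hx => ?_
  have h2 : (⟨⟨x⟩, hx⟩ : Irr) ∈ S ↔ (⟨⟨x⟩, hx⟩ : Irr) ∈ (Subtype.val ⁻¹' B : Set Irr) := by
    rw [hSB]
  exact h2

end Pool.Agent.Results.MP_aca66f_gt.MichaelLine
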